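import Mathlib

/-!
Disjoint union of `M` complete graphs on `m` vertices.
-/

set_option autoImplicit false

namespace Pool.Agent.TH477

open SimpleGraph Finset

/-- the disjoint union of `M` complete graphs on `m` vertices each -/
def blockGraph (M m : ℕ) : SimpleGraph (Fin (M * m)) where
  Adj i j := i ≠ j ∧ i.divNat = j.divNat
  symm := ⟨fun _ _ h => ⟨h.1.symm, h.2.symm⟩⟩
  loopless := ⟨fun _ h => h.1 rfl⟩

theorem card_block (M m : ℕ) (a : Fin M) :
    (Finset.univ.filter (fun j : Fin (M * m) => j.divNat = a)).card = m := by
  classical
  have : (Finset.univ.filter (fun j : Fin (M * m) => j.divNat = a))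
      = (Finset.univ : Finset (Fin m)).image (fun b => finProdFinEquiv (a, b)) := by
    ext j
    simp only [Finset.mem_filter, Finset.mem_univ, true_and, Finset.mem_image]
    constructor
    · intro h
      refine ⟨j.modNat, ?_⟩
      have := finProdFinEquiv.apply_symm_apply j
      rw [finProdFinEquiv_symm_apply, h] at this
      exact this
    · rintro ⟨b, rfl⟩
      have := finProdFinEquiv.symm_apply_apply (a, b)
      rw [finProdFinEquiv_symm_apply] at this
      exact (Prod.ext_iff.mp this).1
  rw [this, Finset.card_image_of_injective, Finset.card_univ, Fintype.card_fin]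
  intro b b' h
  have := finProdFinEquiv.injective h
  exact (Prod.ext_iff.mp this).2

theorem ncard_neighborSet_blockGraph (M m : ℕ) (i : Fin (M * m)) :
    ((blockGraph M m).neighborSet i).ncard = m - 1 := by
  classical
  have h1 : (blockGraph M m).neighborSet i
      = ↑((Finset.univ.filter (fun j : Fin (M * m) => j.divNat = i.divNat)).erase i) := by
    ext j
    simp only [mem_neighborSet, blockGraph, Finset.coe_erase, Finset.coe_filter, Finset.mem_univ,
      true_and, Set.mem_diff, Set.mem_setOf_eq, Set.mem_singleton_iff]
    constructor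
    · rintro ⟨h, h'⟩; exact ⟨h'.symm, Ne.symm h⟩
    · rintro ⟨h, h'⟩; exact ⟨Ne.symm h', h.symm⟩
  rw [h1, Set.ncard_coe_finset, Finset.card_erase_of_mem (by simp), card_block]

theorem support_blockGraph {M m : ℕ} {H : SimpleGraph (Fin (M * m))} (hH : H ≤ blockGraph M m)
    {a b : Fin (M * m)} (p : H.Walk a b) : ∀ x ∈ p.support, x.divNat = a.divNat := by
  induction p with
  | nil => intro x hx; simp at hx; rw [hx]
  | cons h q ih =>
    intro x hx
    rw [Walk.support_cons, List.mem_cons] at hx
    rcases hx with rfl | hx
    · rfl
    · rw [ih x hx]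
      exact (hH h).2.symm

/-- a cycle inside a disjoint union of complete graphs on `m` vertices has length at most `m` -/
theorem length_cycle_le {M m : ℕ} {H : SimpleGraph (Fin (M * m))} (hH : H ≤ blockGraph M m)
    {a : Fin (M * m)} (p : H.Walk a a) (hp : p.IsCycle) : p.length ≤ m := by
  classical
  have h1 : p.support.tail.length = p.length := by simp
  have h2 := hp.support_nodup
  rw [← h1, ← List.toFinset_card_of_nodup h2]
  refine (Finset.card_le_card ?_).trans (card_block M m a.divNat).le
  intro x hx
  rw [List.mem_toFinset] at hx
  rw [Finset.mem_filter]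
  exact ⟨Finset.mem_univ _, support_blockGraph hH p x (List.mem_of_mem_tail hx)⟩

end Pool.Agent.TH477
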