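import Mathlib

/-!
Greedy (Erdős–Sachs type) construction of graphs of large girth and large average degree, and
some elementary facts used for the family of graphs of too small girth.
-/

set_option autoImplicit false

namespace Pool.Agent.TH477

open SimpleGraph Finset

/-- An acyclic graph on a nonempty finite vertex set has a vertex of degree at most one. -/
theorem exists_ncard_neighborSet_le_one {V : Type*} [Finite V] [Nonempty V] (H : SimpleGraph V)
    (hH : H.IsAcyclic) : ∃ v, (H.neighborSet v).ncard ≤ 1 := by
  obtain ⟨u, v, p, hp, hmax⟩ := Walk.exists_isPath_forall_isPath_length_le_length H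
  refine ⟨v, ?_⟩
  have hsub : H.neighborSet v ⊆ {p.penultimate} := by
    intro w hw
    have hw' : H.Adj v w := hw
    have hs : w ∈ p.support := by
      by_contra hns
      have := hmax _ _ (p.concat hw') (hp.concat hns hw')
      simp at this
    exact hH.eq_penultimate_of_adj_end hp hw' hs
  calc (H.neighborSet v).ncard ≤ ({p.penultimate} : Set V).ncard :=
        Set.ncard_le_ncard hsub (Set.toFinite _)
    _ = 1 := Set.ncard_singleton _

section ball
variable {V : Type*} [Fintype V]

open Classical in
/-- ball of radius `i` around `u` -/
noncomputable def ball (T : SimpleGraph V) (u : V) : ℕ → Finset V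
  | 0 => {u}
  | i + 1 => ball T u i ∪ (ball T u i).biUnion (fun x => T.neighborFinset x)

open Classical in
theorem card_ball_le (T : SimpleGraph V) (d : ℕ) (hd : ∀ v, T.degree v ≤ d) (u : V) (i : ℕ) :
    (ball T u i).card ≤ (d + 1) ^ i := by
  induction i with
  | zero => simp [ball]
  | succ i ih =>
    have h1 : ((ball T u i).biUnion (fun x => T.neighborFinset x)).card
        ≤ (ball T u i).card * d := by
      apply Finset.card_biUnion_le_card_mul
      intro x _
      rw [card_neighborFinset_eq_degree]
      exact hd x
    calc (ball T u (i + 1)).card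
        ≤ (ball T u i).card + ((ball T u i).biUnion (fun x => T.neighborFinset x)).card := by
          simpa [ball] using Finset.card_union_le _ _
      _ ≤ (ball T u i).card + (ball T u i).card * d := by gcongr
      _ = (ball T u i).card * (d + 1) := by ring
      _ ≤ (d + 1) ^ i * (d + 1) := by gcongr
      _ = (d + 1) ^ (i + 1) := by ring

theorem mem_ball_of_walk (T : SimpleGraph V) {u v : V} (p : T.Walk v u) :
    ∀ i, p.length ≤ i → v ∈ ball T u i := by
  classical
  induction p with
  | nil =>
    intro i _
    induction i with
    | zero => simp [ball]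
    | succ i ih => simp [ball, ih (by simp)]
  | cons h q ih =>
    intro i hi
    rcases i with _ | i
    · simp at hi
    · have := ih i (by simpa using hi)
      simp only [ball, Finset.mem_union, Finset.mem_biUnion, mem_neighborFinset]
      exact Or.inr ⟨_, this, h.symm⟩

end ball

/-- Adding an edge between two vertices at distance at least `g` keeps the girth at least `g`. -/
theorem le_egirth_sup_edge {V : Type*} [Fintype V] (T : SimpleGraph V) (g : ℕ) {u v : V}
    (hT : (g : ℕ∞) ≤ T.egirth) (hfar : ∀ p : T.Walk v u, g ≤ p.length) :
    (g : ℕ∞) ≤ (T ⊔ edge u v).egirth := by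
  classical
  rw [le_egirth]
  intro a w hw
  by_contra hlt
  rw [not_le] at hlt
  have hlt' : w.length < g := by exact_mod_cast hlt
  have key : ∀ {x y : V} (p : (T ⊔ edge u v).Walk x y), s(u, v) ∉ p.edges →
      ∀ e ∈ p.edges, e ∈ T.edgeSet := by
    intro x y p hp e he
    have h1 := p.edges_subset_edgeSet he
    induction e using Sym2.ind with
    | _ b c =>
      rw [mem_edgeSet, sup_adj] at h1
      rcases h1 with h1 | h1
      · exact h1
      · exfalso
        rw [edge_adj] at h1
        apply hp
        rcases h1.1 with ⟨rfl, rfl⟩ | ⟨rfl, rfl⟩
        · exact he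
        · rw [Sym2.eq_swap]; exact he
  by_cases hmem : s(u, v) ∈ w.edges
  · have hus : u ∈ w.support := w.fst_mem_support_of_mem_edges hmem
    set w' := w.rotate u hus with hw'
    have hcyc : w'.IsCycle := by rw [hw']; simpa using hw
    have hlen : w'.length = w.length := by rw [hw']; simp
    have hmem' : s(u, v) ∈ w'.edges := by
      rw [hw']; exact (w.rotate_edges u hus).mem_iff.mpr hmem
    have hvs : v ∈ w'.support := w'.snd_mem_support_of_mem_edges hmem'
    have hnd := hcyc.edges_nodup
    have hspec := w'.take_spec hvs
    have hedges : w'.edges = (w'.takeUntil v hvs).edges ++ (w'.dropUntil v hvs).edges := by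
      conv_lhs => rw [← hspec]
      rw [Walk.edges_append]
    have hlen2 : w'.length = (w'.takeUntil v hvs).length + (w'.dropUntil v hvs).length := by
      conv_lhs => rw [← hspec]
      rw [Walk.length_append]
    rw [hedges, List.nodup_append] at hnd
    by_cases h1 : s(u, v) ∈ (w'.takeUntil v hvs).edges
    · have h2 : s(u, v) ∉ (w'.dropUntil v hvs).edges := by
        intro h2
        exact hnd.2.2 _ h1 _ h2 rfl
      have h3 := hfar ((w'.dropUntil v hvs).transfer T (key _ h2))
      rw [Walk.length_transfer] at h3
      omega
    · have h3 := hfar (((w'.takeUntil v hvs).transfer T (key _ h1)).reverse)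
      rw [Walk.length_reverse, Walk.length_transfer] at h3
      omega
  · have h2 := hw.transfer (H := T) (key w hmem)
    have h3 := egirth_le_length h2
    rw [Walk.length_transfer] at h3
    have h4 : (g : ℕ∞) ≤ w.length := hT.trans h3
    have h5 : g ≤ w.length := by exact_mod_cast h4
    omega

/-- Greedy construction: for all `d, g, N` there is a graph on `N` vertices, of girth at least
`g`, with at least `d (N - (d+1)^g) / 2` edges. -/
theorem exists_dense_large_girth (d g N : ℕ) (hg : 1 ≤ g) :
    ∃ T : SimpleGraph (Fin N), (g : ℕ∞) ≤ T.egirth ∧
      d * N ≤ 2 * T.edgeSet.ncard + d * (d + 1) ^ g := by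
  classical
  let S : Set (SimpleGraph (Fin N)) := {T | (∀ v, T.degree v ≤ d) ∧ (g : ℕ∞) ≤ T.egirth}
  have hSne : S.Nonempty := by
    refine ⟨⊥, fun v => by simp, ?_⟩
    rw [egirth_bot]
    exact le_top
  obtain ⟨T, hT⟩ := (Set.toFinite S).exists_maximal hSne
  have hTS : T ∈ S := hT.1
  have hlow : ∀ u v, T.degree u < d → T.degree v < d → v ∈ ball T u g := by
    intro u v hu hv
    by_contra hcon
    have hfar : ∀ p : T.Walk v u, g < p.length := by
      intro p
      by_contra h
      exact hcon (mem_ball_of_walk T p g (by omega))
    have huv : u ≠ v := by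
      rintro rfl
      have := hfar Walk.nil
      simp at this
    have hnadj : ¬ T.Adj u v := by
      intro h
      have := hfar (Walk.cons h.symm Walk.nil)
      simp at this
      omega
    have hmem : T ⊔ edge u v ∈ S := by
      refine ⟨?_, le_egirth_sup_edge T g hTS.2 (fun p => (hfar p).le)⟩
      intro x
      by_cases hx : x = u ∨ x = v
      · obtain ⟨y, hy⟩ : ∃ y, ∀ z, (edge u v).Adj x z → z = y := by
          rcases hx with rfl | rfl
          · refine ⟨v, fun z hz => ?_⟩
            rw [edge_adj] at hz
            rcases hz.1 with h | h
            · exact h.2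
            · exact absurd h.1 huv
          · refine ⟨u, fun z hz => ?_⟩
            rw [edge_adj] at hz
            rcases hz.1 with h | h
            · exact absurd h.1.symm huv
            · exact h.2
        have hsub : (T ⊔ edge u v).neighborFinset x ⊆ insert y (T.neighborFinset x) := by
          intro z hz
          rw [mem_neighborFinset, sup_adj] at hz
          rw [Finset.mem_insert, mem_neighborFinset]
          rcases hz with hz | hz
          · exact Or.inr hz
          · exact Or.inl (hy z hz)
        have hdx : T.degree x < d := by rcases hx with rfl | rfl <;> assumption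
        rw [← card_neighborFinset_eq_degree] at hdx ⊢
        have h5 : ((T ⊔ edge u v).neighborFinset x).card ≤ d :=
          calc _ ≤ (insert y (T.neighborFinset x)).card := Finset.card_le_card hsub
            _ ≤ (T.neighborFinset x).card + 1 := Finset.card_insert_le _ _
            _ ≤ d := hdx
        convert h5
      · have hsub : (T ⊔ edge u v).neighborFinset x ⊆ T.neighborFinset x := by
          intro z hz
          rw [mem_neighborFinset, sup_adj] at hz
          rw [mem_neighborFinset]
          rcases hz with hz | hz
          · exact hz
          · rw [edge_adj] at hz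
            rcases hz.1 with h | h
            · exact absurd (Or.inl h.1) hx
            · exact absurd (Or.inr h.1) hx
        have hdx := hTS.1 x
        rw [← card_neighborFinset_eq_degree] at hdx ⊢
        have h5 : ((T ⊔ edge u v).neighborFinset x).card ≤ d :=
          (Finset.card_le_card hsub).trans hdx
        convert h5
    have hle := hT.2 hmem le_sup_left
    have : (T ⊔ edge u v).Adj u v := by
      rw [sup_adj, edge_adj]
      exact Or.inr ⟨Or.inl ⟨rfl, rfl⟩, huv⟩
    exact hnadj (hle this)
  refine ⟨T, hTS.2, ?_⟩
  -- the vertices of degree smaller than `d` all lie in one small ball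
  let L : Finset (Fin N) := Finset.univ.filter (fun v => T.degree v < d)
  have hL : L.card ≤ (d + 1) ^ g := by
    by_cases hne : L.Nonempty
    · obtain ⟨u, hu⟩ := hne
      have hu' : T.degree u < d := (Finset.mem_filter.mp hu).2
      refine (Finset.card_le_card ?_).trans (card_ball_le T d hTS.1 u g)
      intro v hv
      exact hlow u v hu' (Finset.mem_filter.mp hv).2
    · rw [Finset.not_nonempty_iff_eq_empty] at hne
      rw [hne]; simp
  have hsum := T.sum_degrees_eq_twice_card_edges
  have hE : T.edgeSet.ncard = T.edgeFinset.card := by
    rw [← coe_edgeFinset, Set.ncard_coe_finset]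
  rw [hE, ← hsum]
  have h1 : ∑ v : Fin N, d ≤ ∑ v : Fin N, (T.degree v + if T.degree v < d then d else 0) := by
    apply Finset.sum_le_sum
    intro v _
    split_ifs with h
    · omega
    · omega
  rw [Finset.sum_add_distrib, ← Finset.sum_filter] at h1
  simp only [Finset.sum_const, Finset.card_univ, Fintype.card_fin, smul_eq_mul] at h1
  have h2 : L.card * d ≤ (d + 1) ^ g * d := Nat.mul_le_mul_right d hL
  have h3 : (Finset.univ.filter (fun v => T.degree v < d)).card * d = L.card * d := rfl
  calc d * N = N * d := Nat.mul_comm _ _
    _ ≤ _ := h1
    _ ≤ (∑ v, T.degree v) + d * (d + 1) ^ g := by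
      rw [h3]
      have : (d + 1) ^ g * d = d * (d + 1) ^ g := Nat.mul_comm _ _
      omega

end Pool.Agent.TH477
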